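import Pool.Agent.H7.OPP.Stmts

set_option autoImplicit false

namespace Pool.OPP

open scoped Topology ComplexConjugate Uniformity

noncomputable section

theorem ACT_om_add (a b : ZMod 3) : om ^ (a + b).val = om ^ a.val * om ^ b.val := by
  rw [← pow_add, ZMod.val_add]
  conv_rhs => rw [← Nat.mod_add_div (a.val + b.val) 3, pow_add, pow_mul, om_pow_three, one_pow,
    mul_one]

theorem ACT_om_ne_one : om ≠ 1 := by
  intro h
  have h1 : om.im = Real.sin (2 * Real.pi / 3) := by
    unfold om
    have h : (2 * Real.pi * Complex.I / 3 : ℂ) = ((2 * Real.pi / 3 : ℝ) : ℂ) * Complex.I := by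
      push_cast; ring
    rw [h, Complex.exp_ofReal_mul_I_im]
  rw [h, Complex.one_im] at h1
  have h2 : 0 < Real.sin (2 * Real.pi / 3) := by
    apply Real.sin_pos_of_pos_of_lt_pi
    · positivity
    · linarith [Real.pi_pos]
  linarith

theorem ACT_om_pow_eq_one (a : ZMod 3) (h : om ^ a.val = 1) : a = 0 := by
  fin_cases a
  · rfl
  · exfalso
    have : om = 1 := by simpa [ZMod.val] using h
    exact ACT_om_ne_one this
  · exfalso
    have h2 : om ^ 2 = 1 := by simpa [ZMod.val] using h
    have h3 := om_pow_three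
    rw [pow_succ, h2, one_mul] at h3
    exact ACT_om_ne_one h3

theorem ACT_coe (γ : ℕ → ZMod 3) (x : SS) (j : ℕ) :
    ((act γ x) j : EuclideanSpace ℂ (Fin (NN j))) =
      om ^ (γ j).val • (x j : EuclideanSpace ℂ (Fin (NN j))) := rfl

theorem ACT_cont (j : ℕ) :
    Continuous (fun x : SS => (x j : EuclideanSpace ℂ (Fin (NN j)))) := by
  have h1 : Continuous (fun x : SS => x j) := continuous_apply j
  exact continuous_subtype_val.comp h1

theorem ACT_chi (γ : ℕ → ZMod 3) (s : JI) :
    (wt s = none ∧ chi γ s = 1) ∨ ∃ j, wt s = some j ∧ chi γ s = om ^ (γ j).val := by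
  unfold chi
  rcases h : wt s with _ | j
  · left; exact ⟨rfl, rfl⟩
  · right; exact ⟨j, rfl, rfl⟩

theorem sAct : SAct := by
  refine ⟨?_, ?_, ?_, ?_, ?_, ?_, ?_, ?_, ?_, ?_, ?_, ?_, ?_, ?_, ?_⟩
  · intro x
    funext j
    apply Subtype.ext
    rw [ACT_coe]
    simp
  · intro γ γ' x
    funext j
    apply Subtype.ext
    rw [ACT_coe, ACT_coe, ACT_coe, smul_smul, ← ACT_om_add]
    rfl
  · intro γ x h
    funext j
    have h1 : ((act γ x) j : EuclideanSpace ℂ (Fin (NN j))) = x j := by rw [h]
    rw [ACT_coe] at h1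
    have h2 : (om ^ (γ j).val - 1) • (x j : EuclideanSpace ℂ (Fin (NN j))) = 0 := by
      rw [sub_smul, one_smul, h1, sub_self]
    rcases smul_eq_zero.1 h2 with h3 | h3
    · exact ACT_om_pow_eq_one _ (sub_eq_zero.1 h3)
    · exfalso
      have h4 : ‖(x j : EuclideanSpace ℂ (Fin (NN j)))‖ = 1 := norm_eq_of_mem_sphere _
      rw [h3, norm_zero] at h4
      exact zero_ne_one h4
  · intro γ
    apply continuous_pi
    intro j
    apply Continuous.subtype_mk
    exact (ACT_cont j).const_smul (om ^ (γ j).val)
  · intro j x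
    funext i
    apply Subtype.ext
    rw [ACT_coe]
    unfold tt
    by_cases hi : i = j
    · subst hi
      rw [Function.update_self, coe_rot, Pi.single_eq_same]
      have : (1 : ZMod 3).val = 1 := rfl
      rw [this, pow_one]
    · rw [Function.update_of_ne hi, Pi.single_eq_of_ne hi]
      simp
  · intro γ n δ x y h j hj
    rw [ACT_coe, ACT_coe, ← smul_sub, norm_smul, norm_pow, norm_om, one_pow, one_mul]
    exact h j hj
  · intro γ w x hx
    show (4 : ℝ) / 5 ≤ ‖inner ℂ (cc w : EuclideanSpace ℂ (Fin 3)) (y0 (act γ x))‖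
    have : y0 (act γ x) = om ^ (γ 0).val • y0 x := rfl
    rw [this, inner_smul_right, norm_mul, norm_pow, norm_om, one_pow, one_mul]
    exact hx
  · intro γ x
    rfl
  · intro γ s
    rcases ACT_chi γ s with ⟨_, h⟩ | ⟨j, _, h⟩
    · rw [h, norm_one]
    · rw [h, norm_pow, norm_om, one_pow]
  · intro s
    rcases ACT_chi 0 s with ⟨_, h⟩ | ⟨j, _, h⟩
    · exact h
    · rw [h]; simp
  · intro γ γ' s
    rcases h : wt s with _ | j
    · unfold chi; rw [h]; simp
    · unfold chi; rw [h]
      exact ACT_om_add _ _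
  · intro j s
    rcases h : wt s with _ | i
    · unfold chi; rw [h]; simp
    · unfold chi; rw [h]
      simp only [Option.some.injEq]
      by_cases hi : i = j
      · subst hi
        rw [if_pos rfl, Pi.single_eq_same]
        have : (1 : ZMod 3).val = 1 := rfl
        rw [this, pow_one]
      · rw [if_neg hi, Pi.single_eq_of_ne hi]
        simp
  · intro w
    unfold bet
    have hy : Continuous (fun x : SS => y0 x) := ACT_cont 0
    exact continuous_const.max (continuous_const.sub (Continuous.inner continuous_const hy).norm)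
  · intro x
    exact cc_cover (x 0)
  · intro w
    have hy : Continuous (fun x : SS => y0 x) := ACT_cont 0
    exact isClosed_le continuous_const (Continuous.inner continuous_const hy).norm

end

end Pool.OPP
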