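import Pool.Agent.H65.OPP.STEP

/-!
# OPP, module CLM: the value of the cup product on the new chain
-/

set_option autoImplicit false

namespace Pool.OPP

theorem cl_N_fix {A : Type} [AddCommGroup A] (t : AddMonoid.End A) (x : A) (h : t x = x) :
    Nm t x = (3 : ℤ) • x := by
  have h1 : Nm t x = x + t x + t (t x) := rfl
  rw [h1, h, h]
  have : (3 : ℤ) • x = x + x + x := by
    rw [show (3 : ℤ) = 1 + 1 + 1 by norm_num, add_zsmul, add_zsmul, one_zsmul]
  rw [this]

theorem clm : S_CLM := by
  intro A _ κ _ _ d T j F F' P P' h C hC φ α lam ε χ χ' hφ hα hlam hlamj hαd hεα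
  obtain ⟨p, q, y, hp, hq⟩ := hC
  set K := KK T j F F' with hKdef
  set D := stD T j F with hDdef
  have hKd : K * d = d * K - D * Nm (T j) := st_Kd h
  have hDd : D * d = -(T j - 1) - d * D := st_Dd h
  have hKda : ∀ x, K (d x) = d (K x) - D (Nm (T j) x) := fun x => by
    have := congrArg (fun f : AddMonoid.End A => f x) hKd
    exact this
  have hDda : ∀ x, D (d x) = -((T j - 1) x) - d (D x) := fun x => by
    have := congrArg (fun f : AddMonoid.End A => f x) hDd
    exact this
  have hNjK : ∀ x, Nm (T j) (K x) = 0 := fun x =>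
    congrArg (fun f : AddMonoid.End A => f x) (st_NjK h)
  have hNjD : ∀ x, Nm (T j) (D x) = 0 := fun x =>
    congrArg (fun f : AddMonoid.End A => f x) (st_NjD h)
  have hNiK : ∀ i, i ≠ j → ∀ x, Nm (T i) (K x) = K (Nm (T i) x) := fun i hi x =>
    congrArg (fun f : AddMonoid.End A => f x) (st_comm_N i (st_TK h i hi))
  have hNiD : ∀ i, i ≠ j → ∀ x, Nm (T i) (D x) = D (Nm (T i) x) := fun i hi x =>
    congrArg (fun f : AddMonoid.End A => f x) (st_comm_N i (st_TD h i hi))
  have hSiK : ∀ i, i ≠ j → ∀ x, (T i - 1) (K x) = K ((T i - 1) x) := fun i hi x =>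
    congrArg (fun f : AddMonoid.End A => f x) (st_comm_sub i (st_TK h i hi))
  -- first identity
  have e1 : C (K ε) = ∑ i ∈ Finset.univ.erase j, p i (K α) - C (D α) := by
    have h1 : 3 * C (K ε) = C (K (d α)) := by
      rw [← hεα, map_zsmul, map_zsmul, smul_eq_mul]
    rw [hKda, map_sub, hp (K α), cl_N_fix _ _ (hα j), map_zsmul, map_zsmul, smul_eq_mul,
      ← Finset.add_sum_erase _ _ (Finset.mem_univ j), hNjK, map_zero, zero_add] at h1
    have h2 : ∑ i ∈ Finset.univ.erase j, (p i) (Nm (T i) (K α)) =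
        3 * ∑ i ∈ Finset.univ.erase j, p i (K α) := by
      rw [Finset.mul_sum]
      refine Finset.sum_congr rfl fun i hi => ?_
      rw [hNiK i (Finset.ne_of_mem_erase hi), cl_N_fix _ _ (hα i), map_zsmul, map_zsmul,
        smul_eq_mul]
    rw [h2] at h1
    linarith
  -- second identity
  have e2 : C (D α) = -C φ - 3 * C χ - 3 * ∑ i ∈ Finset.univ.erase j, p i (D lam) +
      3 * C (D χ') := by
    have h1 : (T j - 1) lam = φ + (3 : ℤ) • χ := by
      have : (T j - 1) lam = T j lam - lam := rfl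
      rw [this, hlamj]
      abel
    rw [hαd, map_add, map_add, map_zsmul, map_zsmul, hDda, h1, map_sub, map_neg, map_add,
      map_zsmul, hp (D lam), ← Finset.add_sum_erase _ _ (Finset.mem_univ j), hNjD, map_zero,
      zero_add, smul_eq_mul, smul_eq_mul]
    have h2 : ∑ i ∈ Finset.univ.erase j, (p i) (Nm (T i) (D lam)) =
        3 * ∑ i ∈ Finset.univ.erase j, p i (D lam) := by
      rw [Finset.mul_sum]
      refine Finset.sum_congr rfl fun i hi => ?_
      rw [hNiD i (Finset.ne_of_mem_erase hi), cl_N_fix _ _ (hlam i (Finset.ne_of_mem_erase hi)),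
        map_zsmul, map_zsmul, smul_eq_mul]
    rw [h2]
    ring
  -- third identity
  have e3 : ∀ i, i ≠ j → p i (K α) = 3 * ((∑ k ∈ Finset.univ.erase j, y i k (K lam)) -
      p i (D (lam + φ + χ + χ + T j χ)) + p i (K χ')) := by
    intro i hi
    have h1 : Nm (T j) lam = (3 : ℤ) • (lam + φ + χ + χ + T j χ) := by
      have h2 : Nm (T j) lam = lam + T j lam + T j (T j lam) := rfl
      rw [h2, hlamj, map_add, map_add, hlamj, hφ j, map_zsmul]
      have h3 : ∀ x : A, (3 : ℤ) • x = x + x + x := fun x => by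
        rw [show (3 : ℤ) = 1 + 1 + 1 by norm_num, add_zsmul, add_zsmul, one_zsmul]
      rw [h3, h3, h3]
      abel
    have h4 : (T i - 1) lam = 0 := by
      have : (T i - 1) lam = T i lam - lam := rfl
      rw [this, hlam i hi, sub_self]
    have h5 : ∑ k ∈ Finset.univ.erase j, (y i k) (Nm (T k) (K lam)) =
        3 * ∑ k ∈ Finset.univ.erase j, y i k (K lam) := by
      rw [Finset.mul_sum]
      refine Finset.sum_congr rfl fun k hk => ?_
      rw [hNiK k (Finset.ne_of_mem_erase hk), cl_N_fix _ _ (hlam k (Finset.ne_of_mem_erase hk)),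
        map_zsmul, map_zsmul, smul_eq_mul]
    rw [hαd, map_add, map_add, map_zsmul, map_zsmul, hKda, map_sub, hq i (K lam), hSiK i hi, h4,
      map_zero, map_zero, zero_add, ← Finset.add_sum_erase _ _ (Finset.mem_univ j), hNjK,
      map_zero, zero_add, h5, h1, map_zsmul, map_zsmul, smul_eq_mul, smul_eq_mul]
    ring
  rw [e1, e2, Finset.sum_congr rfl fun i hi => e3 i (Finset.ne_of_mem_erase hi),
    ← Finset.mul_sum]
  refine ⟨(∑ i ∈ Finset.univ.erase j, ((∑ k ∈ Finset.univ.erase j, y i k (K lam)) -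
      p i (D (lam + φ + χ + χ + T j χ)) + p i (K χ'))) + C χ +
      ∑ i ∈ Finset.univ.erase j, p i (D lam) - C (D χ'), by ring⟩

end Pool.OPP
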