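import Pool.Agent.H91.OPP.TTB

/-!
# OPP, module STEP: the invariant of the chains is preserved
-/

set_option autoImplicit false

namespace Pool.OPP

section
variable {A : Type} [AddCommGroup A] {κ : Type} {d : AddMonoid.End A} {T : κ → AddMonoid.End A}
  {j : κ} {F F' P P' : AddMonoid.End A}

/-- the operator `(t_j - 1) F` -/
def stD (T : κ → AddMonoid.End A) (j : κ) (F : AddMonoid.End A) : AddMonoid.End A := (T j - 1) * F

theorem st_KK (T : κ → AddMonoid.End A) (j : κ) (F F' : AddMonoid.End A) :
    KK T j F F' = stD T j F * Nm (T j) * F' := rfl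

theorem st_N_sub (h : Rel d T j F F' P P') (i : κ) : Nm (T i) * (T i - 1) = 0 := by
  have h3 := h.T3 i
  unfold Nm
  have : (1 + T i + T i * T i) * (T i - 1) = T i * T i * T i - 1 := by noncomm_ring
  rw [this, h3, sub_self]

theorem st_sub_N (h : Rel d T j F F' P P') (i : κ) : (T i - 1) * Nm (T i) = 0 := by
  have h3 := h.T3 i
  unfold Nm
  have : (T i - 1) * (1 + T i + T i * T i) = T i * T i * T i - 1 := by noncomm_ring
  rw [this, h3, sub_self]

theorem st_dN (h : Rel d T j F F' P P') (i : κ) : d * Nm (T i) = Nm (T i) * d := by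
  have h1 := h.dT i
  unfold Nm
  have h2 : d * (T i * T i) = T i * T i * d := by rw [← mul_assoc, h1, mul_assoc, h1, ← mul_assoc]
  rw [mul_add, mul_add, add_mul, add_mul, h2, h1, mul_one, one_mul]

theorem st_dsub (h : Rel d T j F F' P P') (i : κ) : d * (T i - 1) = (T i - 1) * d := by
  rw [mul_sub, sub_mul, h.dT i, mul_one, one_mul]

theorem st_Dd (h : Rel d T j F F' P P') : stD T j F * d = -(T j - 1) - d * stD T j F := by
  have h1 : (T j - 1) * P = 0 := by rw [sub_mul, h.TP, one_mul, sub_self]
  unfold stD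
  rw [mul_assoc, h.Fd, mul_sub, mul_sub, h1, mul_one, ← mul_assoc, ← st_dsub h, mul_assoc]
  abel

theorem st_NP (h : Rel d T j F F' P P') : stD T j F * Nm (T j) * P' = 0 := by
  have h1 : Nm (T j) * P' = P' + P' + P' := by
    unfold Nm
    rw [add_mul, add_mul, one_mul, mul_assoc, h.TP', h.TP']
  have h2 : stD T j F * P' = 0 := by
    unfold stD
    rw [mul_assoc, h.FP', mul_zero]
  rw [mul_assoc, h1, mul_add, mul_add, h2]
  simp

theorem st_Kd (h : Rel d T j F F' P P') :
    KK T j F F' * d = d * KK T j F F' - stD T j F * Nm (T j) := by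
  have h1 : KK T j F F' * d = stD T j F * Nm (T j) * (F' * d) := by rw [st_KK, mul_assoc]
  rw [h1, h.Fd', mul_sub, mul_sub, st_NP h, mul_one]
  have h2 : stD T j F * Nm (T j) * (d * F') = -(d * KK T j F F') := by
    have h3 : stD T j F * Nm (T j) * (d * F') = stD T j F * (Nm (T j) * d) * F' := by
      noncomm_ring
    rw [h3, ← st_dN h, ← mul_assoc, st_Dd h, sub_mul, neg_mul, st_sub_N h, neg_zero, zero_sub,
      neg_mul, st_KK]
    noncomm_ring
  rw [h2]
  abel

theorem st_NjK (h : Rel d T j F F' P P') : Nm (T j) * KK T j F F' = 0 := by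
  have h1 : Nm (T j) * KK T j F F' = Nm (T j) * (T j - 1) * (F * Nm (T j) * F') := by
    unfold KK
    noncomm_ring
  rw [h1, st_N_sub h, zero_mul]

theorem st_NjD (h : Rel d T j F F' P P') : Nm (T j) * stD T j F = 0 := by
  unfold stD
  rw [← mul_assoc, st_N_sub h, zero_mul]

theorem st_TD (h : Rel d T j F F' P P') (i : κ) (hi : i ≠ j) :
    T i * stD T j F = stD T j F * T i := by
  unfold stD
  rw [mul_assoc, h.FT i hi, ← mul_assoc, ← mul_assoc]
  congr 1
  rw [mul_sub, sub_mul, h.TT i j, mul_one, one_mul]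

theorem st_TN (h : Rel d T j F F' P P') (i : κ) : T i * Nm (T j) = Nm (T j) * T i := by
  have h1 := h.TT i j
  unfold Nm
  have h2 : T i * (T j * T j) = T j * T j * T i := by
    rw [← mul_assoc, h1, mul_assoc, h1, ← mul_assoc]
  rw [mul_add, mul_add, add_mul, add_mul, h2, h1, mul_one, one_mul]

theorem st_TK (h : Rel d T j F F' P P') (i : κ) (hi : i ≠ j) :
    T i * KK T j F F' = KK T j F F' * T i := by
  rw [st_KK, mul_assoc (stD T j F * Nm (T j)), h.FT' i hi]
  have h1 : T i * (stD T j F * Nm (T j) * F') = (T i * stD T j F) * Nm (T j) * F' := by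
    noncomm_ring
  rw [h1, st_TD h i hi]
  have h2 : stD T j F * T i * Nm (T j) * F' = stD T j F * (T i * Nm (T j)) * F' := by
    noncomm_ring
  rw [h2, st_TN h i]
  noncomm_ring

theorem st_comm_N {X : AddMonoid.End A} (i : κ) (hX : T i * X = X * T i) :
    Nm (T i) * X = X * Nm (T i) := by
  unfold Nm
  have h2 : T i * T i * X = X * (T i * T i) := by
    rw [mul_assoc, hX, ← mul_assoc, hX, mul_assoc]
  rw [mul_add, mul_add, add_mul, add_mul, h2, hX, mul_one, one_mul]

theorem st_comm_sub {X : AddMonoid.End A} (i : κ) (hX : T i * X = X * T i) :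
    (T i - 1) * X = X * (T i - 1) := by
  rw [sub_mul, mul_sub, hX, mul_one, one_mul]

end

/-- composition -/
def stc {A : Type} [AddCommGroup A] (C : A →+ ℤ) (X : AddMonoid.End A) : A →+ ℤ :=
  AddMonoidHom.mk' (fun x => C (X x)) fun x y => by rw [map_add, map_add]

theorem stc_apply {A : Type} [AddCommGroup A] (C : A →+ ℤ) (X : AddMonoid.End A) (x : A) :
    stc C X x = C (X x) := rfl

theorem step : S_STEP := by
  intro A _ κ _ _ d T j F F' P P' h C hC
  obtain ⟨p, q, y, hp, hq⟩ := hC
  set K := KK T j F F' with hKdef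
  set D := stD T j F with hDdef
  have hKd : K * d = d * K - D * Nm (T j) := st_Kd h
  have hDd : D * d = -(T j - 1) - d * D := st_Dd h
  have hKda : ∀ x, K (d x) = d (K x) - D (Nm (T j) x) := fun x => by
    have := congrArg (fun f : AddMonoid.End A => f x) hKd
    exact this
  have hDda : ∀ x, D (d x) = -((T j - 1) x) - d (D x) := fun x => by
    have := congrArg (fun f : AddMonoid.End A => f x) hDd
    exact this
  have hNjK : ∀ x, Nm (T j) (K x) = 0 := fun x =>
    congrArg (fun f : AddMonoid.End A => f x) (st_NjK h)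
  have hNjD : ∀ x, Nm (T j) (D x) = 0 := fun x =>
    congrArg (fun f : AddMonoid.End A => f x) (st_NjD h)
  have hNiK : ∀ i, i ≠ j → ∀ x, Nm (T i) (K x) = K (Nm (T i) x) := fun i hi x =>
    congrArg (fun f : AddMonoid.End A => f x) (st_comm_N i (st_TK h i hi))
  have hNiD : ∀ i, i ≠ j → ∀ x, Nm (T i) (D x) = D (Nm (T i) x) := fun i hi x =>
    congrArg (fun f : AddMonoid.End A => f x) (st_comm_N i (st_TD h i hi))
  have hSiK : ∀ i, i ≠ j → ∀ x, (T i - 1) (K x) = K ((T i - 1) x) := fun i hi x =>
    congrArg (fun f : AddMonoid.End A => f x) (st_comm_sub i (st_TK h i hi))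
  refine ⟨fun i => if i = j then -(stc C D) else stc (p i) K,
    fun i => if i = j then C else stc (q i) K,
    fun i k => if i = j then (if k = j then 0 else stc (p k) D) else
      (if k = j then -(stc (p i) D) else stc (y i k) K), ?_, ?_⟩
  · intro φ
    show C (K (d φ)) = _
    rw [hKda, map_sub, hp (K φ), ← Finset.add_sum_erase _ _ (Finset.mem_univ j),
      ← Finset.add_sum_erase _ _ (Finset.mem_univ j), hNjK, map_zero, zero_add]
    simp only [if_true]
    have h1 : ∑ i ∈ Finset.univ.erase j, (p i) (Nm (T i) (K φ)) =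
        ∑ i ∈ Finset.univ.erase j, (if i = j then -(stc C D) else stc (p i) K)
          (Nm (T i) φ) := by
      refine Finset.sum_congr rfl fun i hi => ?_
      rw [if_neg (Finset.ne_of_mem_erase hi), hNiK i (Finset.ne_of_mem_erase hi)]
      rfl
    rw [h1]
    show _ - C (D (Nm (T j) φ)) = -(C (D (Nm (T j) φ))) + _
    ring
  · intro i φ
    by_cases hi : i = j
    · subst hi
      simp only [if_true]
      show -(C (D (d φ))) = _
      rw [hDda, map_sub, map_neg, hp (D φ), ← Finset.add_sum_erase _ _ (Finset.mem_univ i),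
        ← Finset.add_sum_erase _ (fun k => (if k = i then (0 : A →+ ℤ) else stc (p k) D)
          (Nm (T k) φ)) (Finset.mem_univ i), hNjD, map_zero, zero_add]
      simp only [if_true]
      have h1 : ∑ k ∈ Finset.univ.erase i, (p k) (Nm (T k) (D φ)) =
          ∑ k ∈ Finset.univ.erase i, (if k = i then (0 : A →+ ℤ) else stc (p k) D)
            (Nm (T k) φ) := by
        refine Finset.sum_congr rfl fun k hk => ?_
        rw [if_neg (Finset.ne_of_mem_erase hk), hNiD k (Finset.ne_of_mem_erase hk)]
        rfl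
      rw [h1]
      simp only [AddMonoidHom.zero_apply, zero_add]
      ring
    · simp only [if_neg hi]
      show (p i) (K (d φ)) = (q i) (K ((T i - 1) φ)) + _
      rw [hKda, map_sub, hq i (K φ), hSiK i hi,
        ← Finset.add_sum_erase _ _ (Finset.mem_univ j),
        ← Finset.add_sum_erase _ (fun k => (if k = j then -(stc (p i) D) else
          stc (y i k) K) (Nm (T k) φ)) (Finset.mem_univ j), hNjK, map_zero, zero_add]
      simp only [if_true]
      have h1 : ∑ k ∈ Finset.univ.erase j, (y i k) (Nm (T k) (K φ)) =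
          ∑ k ∈ Finset.univ.erase j, (if k = j then -(stc (p i) D) else
            stc (y i k) K) (Nm (T k) φ) := by
        refine Finset.sum_congr rfl fun k hk => ?_
        rw [if_neg (Finset.ne_of_mem_erase hk), hNiK k (Finset.ne_of_mem_erase hk)]
        rfl
      rw [h1]
      show _ - (p i) (D (Nm (T j) φ)) = _ + (-((p i) (D (Nm (T j) φ))) + _)
      ring

end Pool.OPP
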